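import Pool.Agent.Y128.CV.Var
import Pool.Agent.Y128.CV.NcvDefs
import Pool.Agent.Y574.CY.Eig
import Pool.Agent.Y907.CY.REF

/-!
# The noncommutative variational Hodge conjecture for families of cyclic coverings

Let `S` be a smooth connected complex variety and `X_c → S`, `c` in a finite set, families of curves
`y ^ n = ∏ (x - a_t) ^ (m_t)`, where the branch points `a_t` depend on the point of `S` and are distinct at
all points; the degrees `n = n_c ≥ 3`, the numbers `r = r_c ≥ 5` of branch points and the
exponents `m_t`, nonzero modulo `n`, with sum zero, are arbitrary. Let `X → S` be a fibre product of
powers of the Jacobians of these families (of the primitive parts, where the automorphisms of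
order `n` have primitive roots of unity as eigenvalues; for prime `n` this is everything). The
hypotheses `MonodromyOfCoverings` on the representations of the fundamental group `Γ` of `S` on the
cohomology and `TwoFibres` on the algebraic classes in two fibres are explained in
MP_e9c0f3_ag.CyclicCoverings: flat endomorphisms are polynomials in the automorphism, there is one divisor
at the boundary of `S` where two branch points of `X_c` meet, with the sum of their exponents prime to `n`;
algebraic classes on an abelian variety are the invariants of its motivic Galois group, flat classes of
degree two are algebraic, and the determinants on eigenspaces come from constant Fermat motives by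
relative correspondences.

Theorem: Q1 holds for all `S`-linear admissible subcategories `𝒞` of `D_perf(X)`, and in the same way for
the families of varieties whose relative motives are direct factors of such `X`: if a section of
`K_0^top(𝒞/S) ⊗ ℚ` (or a section over a finite covering of `S`) is algebraic in one fibre, it is algebraic in
every fibre. Here `K_0^top(𝒞_s)` is the direct summand of `K_0^top(X_s)` given by the projector `e`
(the relative Fourier-Mukai kernel of the projection to `𝒞`), and by the Chern character the classes in
`K_0^top(X_s) ⊗ ℚ` are families of classes of all degrees; the primitive classes of `X_s` are forms on the
first homology, and `M` bounds the degrees.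

Exceptional Hodge classes of arbitrarily large degree which are not generated by divisors occur
(Weil classes for all cyclotomic fields). The Hodge conjecture is not used.

Proof: all flat classes are combinations of products of flat classes of degree two and determinants on
eigenspaces, by the complex reflections and one more element of the monodromy group; the motivic
Galois group of the fibre acts on each product by a character; a relative kernel maps algebraic classes
to algebraic classes.

The parts `t_EIG` and `t_REF` are by helper574 and helper907.
-/

namespace Pool.Agent.Results.MP_298761_ag.CyclicCoverings

open Pool.Agent.Y128.CV

/-- The noncommutative variational Hodge conjecture for admissible subcategories over families of products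
of Jacobians of cyclic coverings of the line (`Γ` is the fundamental group of the base, `V c` the
first cohomology of the fibre of the family with the number `c` at the base point, `z` any
primitive root of unity of order `level C`). -/
theorem result {k Γ ι : Type} [Field k] [CharZero k] [Group Γ] [Fintype ι] [DecidableEq ι]
    {V : ι → Type} [∀ c, AddCommGroup (V c)] [∀ c, Module k (V c)]
    [∀ c, FiniteDimensional k (V c)] (C : ι → Covering) (ρ : ∀ c, Representation k Γ (V c))
    (ω : ∀ c, V c →ₗ[k] V c →ₗ[k] k) (σ : ∀ c, Module.End k (V c))
    (h : MonodromyOfCoverings C ρ ω σ) (z : AlgebraicClosure k)
    (hz : IsPrimitiveRoot z (level C))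
    (alg alg' : ∀ m, Submodule (AlgebraicClosure k) (Forms (AlgebraicClosure k) (Total k V) m))
    (hA : TwoFibres (rep ρ) (chi (1 : Γ →* k)) (eigAt C σ z) (fun i => (C i.1).rank) alg alg')
    {M : ℕ} (e : AllForms (AlgebraicClosure k) (Total k V) M →
      AllForms (AlgebraicClosure k) (Total k V) M) (he : AdmissibleProjector e alg alg') :
    NoncommutativeVariational (rep ρ) (chi (1 : Γ →* k)) e alg alg' :=
  nc_of_flat he (main_var Pool.Agent.Y574.CY.t_EIG
    (Pool.Agent.Y907.CY.t_REF Pool.Agent.Y574.CY.t_EIG) h hz hA)

end Pool.Agent.Results.MP_298761_ag.CyclicCoverings
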