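import Pool.Agent.Y132.HF.NC

/-!
# The noncommutative variational Hodge conjecture on all fibre products is a finite problem

Let `X i` be finitely many smooth projective families and `Z` a further one over a connected base
`S`, and let `o` be a point of `S`. We consider the fibre products over `S` of `Z` and copies of the
`X i`, and all the `S`-linear admissible subcategories of their categories of perfect complexes.
Suppose that homological and numerical equivalence coincide for the flat algebraic classes (the
algebraic classes on the fibre over `o` which are invariant under the monodromy) on the fibres over
`o` of all these fibre products. This is true if the fibres satisfy the Lefschetz standard
conjecture, for example for abelian schemes.

We show that there is a number `N` such that the flat algebraic classes on all these fibre products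
are polynomials in the pull-backs of the flat algebraic classes on the fibre products of `Z` with at
most `N` of the factors. Hence the noncommutative variational Hodge conjecture for all these
subcategories follows from the classical variational Hodge conjecture for the finitely many fibre
products with at most `N` factors.

For a subcategory the projection onto its topological K-theory, rationally a direct summand of the
cohomology of the fibre, is given by the Mukai vector of the kernel of the projection functor, a
linear combination of classes of algebraic cycles (of all codimensions) on the square of the fibre.
The class of a fibre is algebraic if it is the projection of a linear combination of classes of
algebraic cycles.
-/

universe u v

namespace Pool.Agent.Results.MP_298761_ag.FiniteProblem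

open Pool.Agent.H914 Pool.Agent.Y132.HF

/-- Let `W` be a Weil cohomology (in the intended use: singular cohomology of complex varieties with
rational coefficients), `F` finitely many families `X i` and a family `Z` over a base, and `o` a point
of the base such that homological and numerical equivalence coincide for the flat algebraic classes on
the fibre products of `Z` with copies of the `X i`. There is a number `N` such that for all lists `L`
the flat algebraic classes on the fibre product for `L` are generated by the pull-backs, by
projections, of the flat algebraic classes on the fibre products of `Z` with at most `N` of the
factors; and for every point `s` the noncommutative variational Hodge conjecture, for `o` and `s`,
holds for all admissible subcategories of the categories of perfect complexes on all the fibre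
products if and only if the variational Hodge conjecture, for `o` and `s`, holds for the fibre
products with at most `N` factors. -/
theorem result {k : Type u} [Field k] {𝒱 : VarClass k} {ops : CycleOps 𝒱}
    (W : WeilCohomology.{u, v} ops) {ι : Type} [Finite ι] (F : Families W ι) (o : F.S)
    (h : F.HomNum o) :
    ∃ N : ℕ, (∀ L : List ι, F.GenBy o N L) ∧
      ∀ s : F.S, ((∀ (L : List ι) (C : F.Subcat L), C.VHC o s) ↔
        ∀ L : List ι, L.length ≤ N → F.VHC L o s) :=
  nc_vhc_finite F o h

end Pool.Agent.Results.MP_298761_ag.FiniteProblem
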