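import Pool.Agent.Y121.ZI.ILaw
import Pool.Agent.Y121.ZI.VarDefs

/-!
# MP_298761_ag: the index law for the noncommutative variational Hodge conjecture

Let `S` be a connected base and `s` a point of `S`. For every `S`-linear admissible subcategory `A`
with nonzero topological K-theory of the fibres: the dimension of the space of the global sections
of `K_0^top(X/S) ⊗ ℚ`, `X = A^{⊗ n} ⊗ (A^{⊗ n})^op`, which are algebraic at the point `s`, divided
by the rank of the group of the sections which are algebraic at all points, modulo numerical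
equivalence, converges to some `N` in `{1, 2, 3, …, ∞}`; `N = 1` if and only if for all `n` all
global sections on `A^{⊗ n} ⊗ (A^{⊗ n})^op` which are algebraic at `s` are algebraic at all points,
and numerical triviality implies triviality for the sections on all `A^{⊗ m} ⊗ (A^{⊗ n})^op` which
are algebraic at all points; if `N` is finite, the latter holds and the sections which are algebraic
at `s` are generated by sections which are algebraic everywhere and at most `N - 1` further ones.
-/

universe v w

namespace Pool.Agent.Results.MP_298761_ag.IndexLaw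

open Pool.Agent.Y121.ZI

lemma algAt_map (T : VarTheory.{v, w}) (s : T.Pt) {X Y : T.Obj} {f : T.H X →ₗ[ℚ] T.H Y}
    (hf : f ∈ T.S X Y) {x : T.H X} (hx : x ∈ T.algAt s X) : f x ∈ T.algAt s Y := by
  have hf' : f ∈ Submodule.span ℚ (T.cor X Y : Set (T.H X →ₗ[ℚ] T.H Y)) := hf
  clear hf
  induction hf' using Submodule.span_induction with
  | mem f hf => exact T.algAt_cor s X Y f hf x hx
  | zero => exact Submodule.zero_mem _
  | add f g hf hg hf' hg' => exact Submodule.add_mem _ hf' hg'
  | smul c f hf hf' => exact Submodule.smul_mem _ c hf'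

/-- The sections which are algebraic at `s` form a stable system of classes. -/
def cls (T : VarTheory.{v, w}) (s : T.Pt) : NCTheory.Cls T.toNCTheory where
  C := T.algAt s
  map := fun _ hf _ hx => algAt_map T s hf hx
  one := T.algAt_one s

lemma alg_le (T : VarTheory.{v, w}) (s : T.Pt) (A : T.Obj) : T.alg A ≤ T.algAt s A := by
  rw [NCTheory.alg, values, Submodule.span_le]
  rintro _ ⟨f, hf, rfl⟩
  exact T.algAt_cor s _ _ f hf _ (T.algAt_one s)

lemma vhc_iff (T : VarTheory.{v, w}) (s : T.Pt) (A : T.Obj) :
    T.VHC s A ↔ T.algAt s A ≤ T.alg A :=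
  ⟨fun h => (le_iInf h).trans (T.all A), fun h t => h.trans (alg_le T t A)⟩

/-- The index law for sections which are algebraic at a point. -/
theorem result (T : VarTheory.{v, w}) (s : T.Pt) (A : T.Obj) [Nontrivial (T.H A)] :
    ∃ N : ℕ∞, 1 ≤ N ∧ T.HasIndex (T.algAt s) A N ∧
      (N = 1 ↔ (∀ n, T.VHC s (T.bi A n n)) ∧ ∀ m n, T.StdD (T.bi A m n)) ∧
      (N ≠ ⊤ → (∀ m n, T.StdD (T.bi A m n)) ∧ T.Generated (T.algAt s) A N) := by
  simp only [vhc_iff]
  exact NCTheory.index_law (cls T s) A

end Pool.Agent.Results.MP_298761_ag.IndexLaw
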