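import Pool.Agent.Y121.FD.Var

/-!
Let `X ⟶ S` be a smooth projective morphism of complex varieties, `S` connected. The structure `Family`
collects what is used: the fibres `X s`, the ring `R = K_0(X ×_S X)_ℚ` of relative correspondences with
its Adams grading, the specialisations `R ⟶ CH^*(X s × X s)_ℚ`, the global sections of the local
system of the rational cohomologies of the fibres.

An `S`-linear admissible subcategory `𝒞 ⊂ D_perf(X)` is given by the class `e ∈ R` of its projection
kernel, `e² = e`; `K_0(𝒞_s)_ℚ = e_s K_0(X_s)_ℚ` and `K_0^top(𝒞_s)_ℚ = e_s H(X_s)`.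

There is `p ∈ R` of degree zero, idempotent modulo fibrewise homological equivalence, such that `(X/S, e)`
and the relative Chow motive `(X/S, p)` are isomorphic modulo fibrewise homological equivalence, and
such that the noncommutative variational Hodge conjecture for `𝒞` is equivalent to the variational
Hodge conjecture for the relative Chow motive `(X/S, p)`.
-/

set_option autoImplicit false

universe u v

open CategoryTheory Pool.Agent.H914 Pool.Agent.H914.VarClass Pool.Agent.W492.BB
  Pool.Agent.W550.Corr Pool.Agent.TH133 Pool.Agent.Y121.NK Pool.Agent.Y121.FD in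
theorem Pool.Agent.Results.MP_298761_ag.RelativeChowMotive.result
    {k : Type u} [Field k] {𝒱 : VarClass k} {C : TheoryData.{u, v, 0} 𝒱 ℚ} [IsChowProj C]
    {H : WeilTheoryData.{u, v, 0} C ℚ} [IsWeilProj H]
    {𝒳 : Family H} (h𝒳 : 𝒳.IsFamily)
    [∀ s, FiniteDimensional ℚ (H.A ((𝒳.X s).prod (𝒳.X s)))]
    {e : 𝒳.R} (he : 𝒳.HomTriv (e * e - e)) :
    ∃ p u v : 𝒳.R, 𝒳.G.pr 0 p = p ∧ 𝒳.HomTriv (p * p - p) ∧ 𝒳.HomTriv (u * v - e) ∧
      𝒳.HomTriv (v * u - p) ∧ (𝒳.NCVarHodge e ↔ 𝒳.VarHodge p) :=
  Family.var_main h𝒳 he
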